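import Mathlib

set_option autoImplicit false

namespace Pool.Agent.Results.MP_7d76f2_co.No

/-- Vertices that become filled starting from `B` under the colour change rule. -/
inductive Filled {n : ℕ} (G : SimpleGraph (Fin n)) (B : Finset (Fin n)) : Fin n → Prop
  | base (v : Fin n) : v ∈ B → Filled G B v
  | force (u w : Fin n) : Filled G B u → G.Adj u w →
      (∀ x, G.Adj u x → x ≠ w → Filled G B x) → Filled G B w

/-- Zero forcing number. -/
noncomputable def zfNum {n : ℕ} (G : SimpleGraph (Fin n)) : ℕ :=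
  sInf {k | ∃ B : Finset (Fin n), B.card = k ∧ ∀ v, Filled G B v}

/-- A fort: nonempty, and no outside vertex has exactly one neighbour in it. -/
def IsFort {n : ℕ} (G : SimpleGraph (Fin n)) (F : Finset (Fin n)) : Prop :=
  F.Nonempty ∧ ∀ v, v ∉ F → ¬ ∃! w, w ∈ F ∧ G.Adj v w

/-- Fort number. -/
noncomputable def ftNum {n : ℕ} (G : SimpleGraph (Fin n)) : ℕ :=
  sSup {k | ∃ C : Finset (Finset (Fin n)), C.card = k ∧ (∀ F ∈ C, IsFort G F) ∧
    ∀ F ∈ C, ∀ F' ∈ C, F ≠ F' → Disjoint F F'}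

/-- Fractional zero forcing number. -/
noncomputable def zStar {n : ℕ} (G : SimpleGraph (Fin n)) : ℝ :=
  sInf {s | ∃ x : Fin n → ℝ, (∀ v, 0 ≤ x v) ∧
    (∀ F, Minimal (IsFort G) F → 1 ≤ ∑ v ∈ F, x v) ∧ s = ∑ v, x v}

section Example

def edges : List (Fin 12 × Fin 12) :=
  [(0, 3), (0, 11), (1, 5), (1, 11), (2, 4), (2, 8), (2, 10), (2, 11),
    (3, 8), (3, 9), (4, 5), (6, 10), (7, 8), (8, 9), (8, 11)]

def adjB (u v : Fin 12) : Bool := edges.contains (u, v) || edges.contains (v, u)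

lemma adjB_symm : ∀ u v, adjB u v = true → adjB v u = true := by decide +kernel
lemma adjB_irr : ∀ u, adjB u u = false := by decide +kernel

def G0 : SimpleGraph (Fin 12) where
  Adj u v := adjB u v = true
  symm := ⟨adjB_symm⟩
  loopless := ⟨fun u h => by simp [adjB_irr u] at h⟩

def clauses : List (Fin 12 × Fin 12 × List (Fin 12)) :=
  [(0, 3, [11]), (0, 11, [3]), (1, 5, [11]), (1, 11, [5]),
    (2, 4, [8, 10, 11]), (2, 8, [4, 10, 11]), (2, 10, [4, 8, 11]), (2, 11, [4, 8, 10]),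
    (3, 0, [8, 9]), (3, 8, [0, 9]), (3, 9, [0, 8]), (4, 2, [5]),
    (4, 5, [2]), (5, 1, [4]), (5, 4, [1]), (6, 10, []),
    (7, 8, []), (8, 2, [3, 7, 9, 11]), (8, 3, [2, 7, 9, 11]), (8, 7, [2, 3, 9, 11]),
    (8, 9, [2, 3, 7, 11]), (8, 11, [2, 3, 7, 9]), (9, 3, [8]), (9, 8, [3]),
    (10, 2, [6]), (10, 6, [2]), (11, 0, [1, 2, 8]), (11, 1, [0, 2, 8]),
    (11, 2, [0, 1, 8]), (11, 8, [0, 1, 2])]

def mins : List (List (Fin 12)) :=
  [[1, 2, 4, 6, 7], [1, 2, 5, 6, 7], [1, 4, 7, 8, 9], [0, 1, 4, 9, 11],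
    [1, 3, 4, 9, 11], [0, 4, 5, 9, 11], [3, 4, 5, 9, 11], [0, 1, 3, 4, 7, 8],
    [0, 1, 2, 4, 6, 9], [0, 1, 2, 5, 6, 9], [0, 3, 6, 7, 8, 10], [0, 6, 7, 8, 9, 10],
    [1, 3, 4, 7, 8, 11], [3, 4, 5, 7, 8, 11], [0, 2, 5, 6, 9, 11], [2, 3, 5, 6, 9, 11],
    [0, 1, 3, 4, 6, 9, 10], [0, 1, 4, 6, 7, 9, 10], [2, 3, 5, 6, 7, 8, 11]]

lemma clauses_ok : ∀ c ∈ clauses, adjB c.1 c.2.1 = true ∧
    ∀ y, adjB c.1 y = true → y ≠ c.2.1 → y ∈ c.2.2 := by decide +kernel

def cnf (L : List Bool) : Bool :=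
  clauses.all fun c => L.getD c.1 false || !L.getD c.2.1 false || c.2.2.any fun y => L.getD y false

def dnf (L : List Bool) : Bool := mins.any fun M => M.all fun y => L.getD y false

lemma enum : ∀ b0 b1 b2 b3 b4 b5 b6 b7 b8 b9 b10 b11 : Bool,
    (!cnf [b0, b1, b2, b3, b4, b5, b6, b7, b8, b9, b10, b11] ||
      !(b0 || b1 || b2 || b3 || b4 || b5 || b6 || b7 || b8 || b9 || b10 || b11) ||
      dnf [b0, b1, b2, b3, b4, b5, b6, b7, b8, b9, b10, b11]) = true := by decide +kernel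

lemma mins_meet : ∀ M ∈ mins, ∀ M' ∈ mins, ∃ v ∈ M, v ∈ M' := by decide +kernel

lemma mins_46 : ∀ M ∈ mins, 4 ∈ M ∨ 6 ∈ M := by decide +kernel

lemma fort_min (F : Finset (Fin 12)) (hF : IsFort G0 F) : ∃ M ∈ mins, ∀ v ∈ M, v ∈ F := by
  have key := enum (decide (0 ∈ F)) (decide (1 ∈ F)) (decide (2 ∈ F)) (decide (3 ∈ F))
    (decide (4 ∈ F)) (decide (5 ∈ F)) (decide (6 ∈ F)) (decide (7 ∈ F)) (decide (8 ∈ F))
    (decide (9 ∈ F)) (decide (10 ∈ F)) (decide (11 ∈ F))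
  have hL : ∀ v : Fin 12, [decide (0 ∈ F), decide (1 ∈ F), decide (2 ∈ F), decide (3 ∈ F),
      decide (4 ∈ F), decide (5 ∈ F), decide (6 ∈ F), decide (7 ∈ F), decide (8 ∈ F),
      decide (9 ∈ F), decide (10 ∈ F), decide (11 ∈ F)].getD v false = decide (v ∈ F) := by
    intro v
    fin_cases v <;> rfl
  generalize [decide (0 ∈ F), decide (1 ∈ F), decide (2 ∈ F), decide (3 ∈ F),
      decide (4 ∈ F), decide (5 ∈ F), decide (6 ∈ F), decide (7 ∈ F), decide (8 ∈ F),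
      decide (9 ∈ F), decide (10 ∈ F), decide (11 ∈ F)] = L at key hL
  have h1 : cnf L = true := by
    simp only [cnf, List.all_eq_true, hL, Bool.or_eq_true, decide_eq_true_eq,
      Bool.not_eq_true', decide_eq_false_iff_not, List.any_eq_true]
    intro c hc
    obtain ⟨a1, a2⟩ := clauses_ok c hc
    by_contra hcon
    simp only [not_or, not_not, not_exists, not_and] at hcon
    obtain ⟨⟨b1, b2⟩, b3⟩ := hcon
    apply hF.2 c.1 b1
    refine ⟨c.2.1, ⟨b2, a1⟩, ?_⟩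
    rintro y ⟨y1, y2⟩
    by_contra hne
    exact b3 y (a2 y y2 hne) y1
  have h2 : (decide (0 ∈ F) || decide (1 ∈ F) || decide (2 ∈ F) || decide (3 ∈ F) ||
      decide (4 ∈ F) || decide (5 ∈ F) || decide (6 ∈ F) || decide (7 ∈ F) || decide (8 ∈ F) ||
      decide (9 ∈ F) || decide (10 ∈ F) || decide (11 ∈ F)) = true := by
    obtain ⟨v, hv⟩ := hF.1
    fin_cases v <;> simp_all
  rw [h1, h2] at key
  simp only [Bool.not_true, Bool.false_or, dnf, List.any_eq_true, List.all_eq_true, hL,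
    decide_eq_true_eq] at key
  exact key

lemma ft_le : ftNum G0 ≤ 1 := by
  apply csSup_le'
  rintro k ⟨C, rfl, h1, h2⟩
  apply Finset.card_le_one.2
  intro F hF F' hF'
  by_contra hne
  obtain ⟨M, hM, a⟩ := fort_min F (h1 F hF)
  obtain ⟨M', hM', b⟩ := fort_min F' (h1 F' hF')
  obtain ⟨v, v1, v2⟩ := mins_meet M hM M' hM'
  exact Finset.disjoint_left.1 (h2 F hF F' hF' hne) (a v v1) (b v v2)

lemma fort_of (F : Finset (Fin 12)) (hne : F.Nonempty)
    (h : ∀ u w, u ∉ F → w ∈ F → adjB u w = true → ∃ y, adjB u y = true ∧ y ≠ w ∧ y ∈ F) :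
    IsFort G0 F := by
  refine ⟨hne, ?_⟩
  rintro v hv ⟨w, ⟨hw, hvw⟩, huniq⟩
  obtain ⟨y, a, b, c⟩ := h v w hv hw hvw
  exact b (huniq y ⟨c, a⟩)

lemma F1 : IsFort G0 {1, 3, 4, 9, 11} := fort_of _ (by decide) (by decide +kernel)
lemma F2 : IsFort G0 {0, 4, 5, 9, 11} := fort_of _ (by decide) (by decide +kernel)
lemma F3 : IsFort G0 {1, 2, 5, 6, 7} := fort_of _ (by decide) (by decide +kernel)
lemma F4 : IsFort G0 {0, 3, 6, 7, 8, 10} := fort_of _ (by decide) (by decide +kernel)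

lemma fort_ge (x : Fin 12 → ℝ) (hx : ∀ v, 0 ≤ x v)
    (h : ∀ F, Minimal (IsFort G0) F → 1 ≤ ∑ v ∈ F, x v) (F : Finset (Fin 12))
    (hF : IsFort G0 F) : 1 ≤ ∑ v ∈ F, x v := by
  obtain ⟨F', h1, h2⟩ := exists_minimal_le_of_wellFoundedLT (IsFort G0) F hF
  exact (h F' h2).trans (Finset.sum_le_sum_of_subset_of_nonneg h1 fun v _ _ => hx v)

lemma zStar_eq : zStar G0 = 2 := by
  apply IsLeast.csInf_eq
  constructor
  · refine ⟨fun v => if v = 4 ∨ v = 6 then 1 else 0, fun v => by positivity, ?_, ?_⟩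
    · intro F hF
      obtain ⟨M, hM, a⟩ := fort_min F hF.1
      have hnn : ∀ v ∈ F, (0 : ℝ) ≤ if v = 4 ∨ v = 6 then 1 else 0 := fun v _ => by positivity
      rcases mins_46 M hM with h | h
      · simpa using Finset.single_le_sum hnn (a _ h)
      · simpa using Finset.single_le_sum hnn (a _ h)
    · simp only [Fin.sum_univ_succ, Fin.sum_univ_zero]
      simp (decide := true)
      norm_num
  · rintro s ⟨x, hx, h, rfl⟩
    have f1 := fort_ge x hx h _ F1
    have f2 := fort_ge x hx h _ F2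
    have f3 := fort_ge x hx h _ F3
    have f4 := fort_ge x hx h _ F4
    simp (decide := true) only [Finset.sum_insert, Finset.mem_insert, Finset.mem_singleton,
      Finset.sum_singleton, not_false_eq_true] at f1 f2 f3 f4
    simp only [Fin.sum_univ_succ, Fin.sum_univ_zero]
    have e2 := hx 2
    have e8 := hx 8
    have e10 := hx 10
    show 2 ≤ x 0 + (x 1 + (x 2 + (x 3 + (x 4 + (x 5 + (x 6 + (x 7 + (x 8 + (x 9 + (x 10 +
      (x 11 + 0)))))))))))
    linarith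

lemma fort_meets (B : Finset (Fin 12)) (hB : ∀ v, Filled G0 B v) (F : Finset (Fin 12))
    (hF : IsFort G0 F) : ∃ a ∈ F, a ∈ B := by
  by_contra hc
  have key : ∀ v, Filled G0 B v → v ∉ F := by
    intro v hv
    induction hv with
    | base v hv => exact fun h => hc ⟨v, h, hv⟩
    | force u w _ huw _ i1 i2 =>
      intro hw
      apply hF.2 u i1
      refine ⟨w, ⟨hw, huw⟩, ?_⟩
      rintro y ⟨y1, y2⟩
      by_contra hne
      exact i2 y y2 hne y1
  obtain ⟨a, ha⟩ := hF.1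
  exact key a (hB a) ha

def chk : List (Fin 12 × Fin 12) → List (Fin 12) → Bool
  | [], S => decide (∀ v, v ∈ S)
  | (u, w) :: st, S => S.contains u && adjB u w &&
      decide (∀ y, adjB u y = true → y ≠ w → y ∈ S) && chk st (w :: S)

lemma chk_sound (B : Finset (Fin 12)) : ∀ (st : List (Fin 12 × Fin 12)) (S : List (Fin 12)),
    chk st S = true → (∀ v ∈ S, Filled G0 B v) → ∀ v, Filled G0 B v := by
  intro st
  induction st with
  | nil =>
    intro S h hS v
    simp only [chk, decide_eq_true_eq] at h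
    exact hS v (h v)
  | cons p st ih =>
    obtain ⟨u, w⟩ := p
    intro S h hS
    simp only [chk, Bool.and_eq_true, decide_eq_true_eq, List.contains_iff_mem] at h
    obtain ⟨⟨⟨k1, k2⟩, k3⟩, k4⟩ := h
    apply ih (w :: S) k4
    intro v hv
    rcases List.mem_cons.1 hv with rfl | hv
    · exact Filled.force u v (hS u k1) k2 fun y a b => hS y (k3 y a b)
    · exact hS v hv

lemma zf_eq : zfNum G0 = 2 := by
  apply IsLeast.csInf_eq
  constructor
  · refine ⟨{4, 6}, by decide, ?_⟩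
    refine chk_sound _ [(6, 10), (10, 2), (4, 5), (5, 1), (1, 11),
    (2, 8), (11, 0), (0, 3), (3, 9), (8, 7)] [4, 6] (by decide +kernel) ?_
    intro v hv
    exact Filled.base v (by simpa using hv)
  · rintro k ⟨B, rfl, hB⟩
    by_contra hlt
    have hle : B.card ≤ 1 := by omega
    have one := Finset.card_le_one.1 hle
    obtain ⟨a, a1, a2⟩ := fort_meets B hB _ F1
    obtain ⟨b, b1, b2⟩ := fort_meets B hB _ F2
    obtain ⟨c, c1, c2⟩ := fort_meets B hB _ F3
    have e1 := one a a2 b b2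
    have e2 := one a a2 c c2
    subst e1 e2
    revert a1 b1 c1
    generalize a = v
    revert v
    decide

end Example

theorem result : ¬ ∀ (n : ℕ) (G : SimpleGraph (Fin n)), 0 < n →
    (zStar G = (zfNum G : ℝ) ↔ ftNum G = zfNum G) := by
  intro h
  have h1 := (h 12 G0 (by norm_num)).1 (by rw [zStar_eq, zf_eq]; norm_num)
  have h2 := ft_le
  rw [h1, zf_eq] at h2
  omega

end Pool.Agent.Results.MP_7d76f2_co.No
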